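import Pool.Agent.helper53.DC.SpecA

set_option autoImplicit false

namespace Pool.Agent.helper66.DC

open Pool.Agent.helper53.DC

theorem A6 (h3 : A3_stmt) : A6_stmt := by
  intro B W _ M cs
  have key : ∀ w : Wall cs, ∃ (x : W) (i : B), w = wall cs x i := by
    intro w
    obtain ⟨x, i, hx⟩ := w.2
    exact ⟨x, i, Subtype.ext hx⟩
  have hne : ∀ w : Wall cs, (w.1 : W) ∈ (cw cs).H w := by
    intro w
    rw [mem_cw, w.2.mul_self, cs.length_one]
    exact w.2.odd_length.pos
  refine ⟨fun w => ⟨w.1, hne w⟩, fun w => ⟨1, ?_⟩, ?_, ?_⟩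
  · intro h
    rw [mem_cw, cs.length_one] at h
    exact absurd h (by omega)
  · intro w w' h
    obtain ⟨x, i, hx⟩ := key w
    have h1 := (h3 cs w x i).2 hx
    unfold WS.Sep at h1
    rw [h] at h1
    rw [hx]
    exact ((h3 cs w' x i).1 h1).symm
  · intro w w' h
    obtain ⟨x, i, hx⟩ := key w
    have h1 := (h3 cs w x i).2 hx
    unfold WS.Sep at h1
    rw [h, Set.mem_compl_iff, Set.mem_compl_iff] at h1
    have h2 : (cw cs).Sep w' x (x * cs.simple i) := by
      unfold WS.Sep
      tauto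
    have h4 : w' = w := by rw [hx]; exact (h3 cs w' x i).1 h2
    rw [h4] at h
    have h5 := hne w
    have h6 := h5
    rw [h] at h6
    exact h6 h5

end Pool.Agent.helper66.DC
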