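import Pool.Agent.helper53.DC.SpecA

set_option autoImplicit false

namespace Pool.Agent.helper66.DC

open Pool.Agent.helper53.DC

theorem W7_not (b c : Bool) (h : ¬ b = c) : b = !c := by
  revert h; revert b c; decide

theorem W7_mirsky {X Wl : Type} (A : Wl → Set X) (D : ℕ) : ∀ (k : ℕ) (F : Finset Wl),
    (∀ E ⊆ F, (∀ v ∈ E, ∀ v' ∈ E, v ≠ v' → ¬ A v ⊂ A v' ∧ ¬ A v' ⊂ A v) → E.card ≤ D) →
    k * D < F.card →
    ∃ v : ℕ → Wl, (∀ i ≤ k, v i ∈ F) ∧ ∀ i < k, A (v (i + 1)) ⊂ A (v i) := by
  classical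
  intro k
  induction k with
  | zero =>
    intro F _ hF
    obtain ⟨v, hv⟩ := Finset.card_pos.1 (by omega : 0 < F.card)
    exact ⟨fun _ => v, fun _ _ => hv, fun i hi => absurd hi (by omega)⟩
  | succ k ih =>
    intro F hD hF
    set Mx := F.filter (fun v => ∀ v' ∈ F, ¬ A v ⊂ A v') with hMx
    have h1 : Mx.card ≤ D := by
      refine hD Mx (Finset.filter_subset _ _) ?_
      intro v hv v' hv' _
      rw [hMx, Finset.mem_filter] at hv hv'
      exact ⟨hv.2 v' hv'.1, hv'.2 v hv.1⟩
    have h2 : (F \ Mx).card = F.card - Mx.card :=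
      Finset.card_sdiff_of_subset (Finset.filter_subset _ _)
    have h3 : (k + 1) * D = k * D + D := by ring
    obtain ⟨v, hv, hv'⟩ := ih (F \ Mx)
      (fun E hE h => hD E (hE.trans Finset.sdiff_subset) h) (by omega)
    have h4 := hv 0 (by omega)
    rw [Finset.mem_sdiff, hMx, Finset.mem_filter] at h4
    have h5 : ∃ v' ∈ F, A (v 0) ⊂ A v' := by
      by_contra hne
      push Not at hne
      exact h4.2 ⟨h4.1, fun v' hv' => hne v' hv'⟩
    obtain ⟨u, hu, hu'⟩ := h5
    refine ⟨fun i => if i = 0 then u else v (i - 1), ?_, ?_⟩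
    · intro i hi
      by_cases h0 : i = 0
      · simp only [h0, if_true]; exact hu
      · simp only [h0, if_false]
        exact (Finset.mem_sdiff.1 (hv (i - 1) (by omega))).1
    · intro i hi
      by_cases h0 : i = 0
      · subst h0
        simp only [if_true]
        exact hu'
      · have h6 := hv' (i - 1) (by omega)
        have h7 : i - 1 + 1 = i := by omega
        rw [h7] at h6
        simp only [h0, if_false, Nat.add_eq_zero_iff, one_ne_zero, and_false, Nat.add_sub_cancel]
        exact h6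

theorem W7 : W7_stmt := by
  intro X Wl S hS C x D k F hC hF hD hk
  classical
  obtain ⟨z, hz⟩ := hC
  set A : Wl → Set X := fun v => S.hs v (decide (x ∈ S.H v)) with hA
  have hx : ∀ v, x ∈ A v := by
    intro v
    simp [hA, WS.hs]
  have hzA : ∀ v ∈ F, ∀ z ∈ C, z ∉ A v := by
    intro v hv z hz h
    apply hF v hv z hz
    simp only [hA, WS.hs] at h
    have h1 : z ∈ S.H v ↔ decide (x ∈ S.H v) = true := h
    rw [h1, decide_eq_true_iff]
  have hcr : ∀ v ∈ F, ∀ v' ∈ F, v ≠ v' → ¬ A v ⊂ A v' ∧ ¬ A v' ⊂ A v → S.Cross v v' := by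
    intro v hv v' hv' hne hn
    -- the sets are different
    have hdiff : A v ≠ A v' := by
      intro h
      simp only [hA] at h
      by_cases h1 : x ∈ S.H v <;> by_cases h2 : x ∈ S.H v'
      · simp only [h1, h2, decide_true, WS.hs, iff_true] at h
        exact hne (hS.inj v v' h)
      · simp only [h1, h2, decide_true, decide_false, WS.hs, iff_true, Bool.false_eq_true,
          iff_false] at h
        exact hS.injc v v' h
      · simp only [h1, h2, decide_true, decide_false, WS.hs, iff_true, Bool.false_eq_true,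
          iff_false] at h
        exact hS.injc v' v h.symm
      · simp only [h1, h2, decide_false, WS.hs, Bool.false_eq_true, iff_false] at h
        refine hne (hS.inj v v' ?_)
        ext y
        have := Set.ext_iff.1 h y
        simp only [Set.mem_setOf_eq] at this
        tauto
    have h12 : ¬ A v ⊆ A v' := fun h => hn.1 (lt_of_le_of_ne h hdiff)
    have h21 : ¬ A v' ⊆ A v := fun h => hn.2 (lt_of_le_of_ne h (Ne.symm hdiff))
    obtain ⟨p, hp, hp'⟩ := Set.not_subset.1 h12
    obtain ⟨q, hq, hq'⟩ := Set.not_subset.1 h21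
    have hneg : ∀ (w : Wl) (y : X), y ∉ A w → y ∈ S.hs w (!(decide (x ∈ S.H w))) := by
      intro w y hy
      simp only [hA, WS.hs, Set.mem_setOf_eq] at hy ⊢
      by_cases h1 : x ∈ S.H w <;> simp [h1] at hy ⊢ <;> exact hy
    have hz1 := hzA v hv z hz
    have hz2 := hzA v' hv' z hz
    intro b b'
    by_cases hb : b = decide (x ∈ S.H v) <;> by_cases hb' : b' = decide (x ∈ S.H v')
    · rw [hb, hb']; exact ⟨x, hx v, hx v'⟩
    · have : b' = !(decide (x ∈ S.H v')) := W7_not _ _ hb'
      rw [hb, this]; exact ⟨p, hp, hneg v' p hp'⟩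
    · have : b = !(decide (x ∈ S.H v)) := W7_not _ _ hb
      rw [hb', this]; exact ⟨q, hneg v q hq', hq⟩
    · have e1 : b = !(decide (x ∈ S.H v)) := W7_not _ _ hb
      have e2 : b' = !(decide (x ∈ S.H v')) := W7_not _ _ hb'
      rw [e1, e2]; exact ⟨z, hneg v z hz1, hneg v' z hz2⟩
  obtain ⟨v, hv, hv'⟩ := W7_mirsky A D k F (by
    intro E hE h
    refine hD E hE ?_
    intro v hv v' hv' hne
    exact hcr v (hE hv) v' (hE hv') hne (h v hv v' hv' hne)) hk
  refine ⟨v, fun i => decide (x ∈ S.H (v i)), fun i _ => hx (v i), ?_, fun i hi => hv' i hi⟩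
  intro i hi
  rw [Set.disjoint_left]
  intro y hy hyC
  exact hzA (v i) (hv i hi) y hyC hy

end Pool.Agent.helper66.DC
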