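import Pool.Agent.helper53.DC.SpecA

set_option autoImplicit false

namespace Pool.Agent.helper66.DC

open Pool.Agent.helper53.DC

theorem W4_mirsky {Wl : Type} (R : Wl → Wl → Prop) (htr : ∀ a b c, R a b → R b c → R a c)
    (D : ℕ) : ∀ (k : ℕ) (F : Finset Wl),
    (∀ E ⊆ F, (∀ v ∈ E, ∀ v' ∈ E, v ≠ v' → ¬ R v v' ∧ ¬ R v' v) → E.card ≤ D) →
    k * D < F.card →
    ∃ v : ℕ → Wl, (∀ i ≤ k, v i ∈ F) ∧ ∀ i j, i < j → j ≤ k → R (v i) (v j) := by
  classical
  intro k
  induction k with
  | zero =>
    intro F _ hF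
    obtain ⟨v, hv⟩ := Finset.card_pos.1 (by omega : 0 < F.card)
    exact ⟨fun _ => v, fun _ _ => hv, fun i j hij hj => absurd hij (by omega)⟩
  | succ k ih =>
    intro F hD hF
    set Mn := F.filter (fun v => ∀ v' ∈ F, ¬ R v' v) with hMn
    have h1 : Mn.card ≤ D := by
      refine hD Mn (Finset.filter_subset _ _) ?_
      intro v hv v' hv' _
      rw [hMn, Finset.mem_filter] at hv hv'
      exact ⟨hv'.2 v hv.1, hv.2 v' hv'.1⟩
    have h2 : (F \ Mn).card = F.card - Mn.card :=
      Finset.card_sdiff_of_subset (Finset.filter_subset _ _)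
    have h3 : (k + 1) * D = k * D + D := by ring
    obtain ⟨v, hv, hv'⟩ := ih (F \ Mn)
      (fun E hE h => hD E (hE.trans Finset.sdiff_subset) h) (by omega)
    have h4 := hv 0 (by omega)
    rw [Finset.mem_sdiff, hMn, Finset.mem_filter] at h4
    have h5 : ∃ v' ∈ F, R v' (v 0) := by
      by_contra hne
      push Not at hne
      exact h4.2 ⟨h4.1, fun v' hv' => hne v' hv'⟩
    obtain ⟨u, hu, hu'⟩ := h5
    refine ⟨fun i => if i = 0 then u else v (i - 1), ?_, ?_⟩
    · intro i hi
      by_cases h0 : i = 0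
      · simp only [h0, if_true]; exact hu
      · simp only [h0, if_false]
        exact (Finset.mem_sdiff.1 (hv (i - 1) (by omega))).1
    · intro i j hij hj
      have hj0 : j ≠ 0 := by omega
      by_cases h0 : i = 0
      · subst h0
        simp only [if_true, hj0, if_false]
        by_cases h1 : j = 1
        · subst h1; exact hu'
        · exact htr _ _ _ hu' (hv' 0 (j - 1) (by omega) (by omega))
      · simp only [h0, hj0, if_false]
        exact hv' (i - 1) (j - 1) (by omega) (by omega)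

theorem W4 (_h1 : W1_stmt) (h3 : W3_stmt) : W4_stmt := by
  intro X Wl S hS u u' D k F hF hD hk
  classical
  obtain ⟨-, -, -, h4, -, -, h7, -, -, -, -⟩ := h3 S hS
  obtain ⟨v, hv, hv'⟩ := W4_mirsky (fun a b => S.Btw a u b)
    (fun a b c hab hbc => (h4 a b u c hab hbc).1) D k F (by
      intro E hE h
      refine hD E hE ?_
      intro v hv v' hv' hne
      by_contra hc
      rcases h7 v v' u u' (hF v (hE hv)) (hF v' (hE hv')) hne hc with h8 | h8
      · exact (h v hv v' hv' hne).1 h8.1
      · exact (h v hv v' hv' hne).2 h8.1) hk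
  refine ⟨v, ⟨fun i hi => hF _ (hv i (by omega)), ?_⟩, fun i hi => hv i (by omega)⟩
  intro i j hij hj
  have h5 := hv' i j hij (by omega)
  exact ⟨h5, (h4 (v i) (v j) u u' h5 (hF _ (hv j (by omega)))).2⟩

end Pool.Agent.helper66.DC
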